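import Mathlib

open Topology Filter Set TopologicalSpace

namespace Pool.Agent.Results.MP_ac5cde_gt.Transitive

universe u v w

/-- A `G`-space `X` is `G`-Tychonoff if it embeds equivariantly into a compact Hausdorff
`G`-space (with jointly continuous action). -/
def GTychonoff (G : Type u) (X : Type v) [Group G] [TopologicalSpace G]
    [TopologicalSpace X] [MulAction G X] : Prop :=
  ∃ (Y : Type w) (_ : TopologicalSpace Y) (_ : CompactSpace Y) (_ : T2Space Y)
    (_ : MulAction G Y) (_ : ContinuousSMul G Y) (ν : X → Y),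
    IsEmbedding ν ∧ ∀ (g : G) (x : X), ν (g • x) = g • ν x

/-! ### The group -/

/-- Order automorphisms of the line. -/
abbrev Gam : Type := ℝ ≃o ℝ

/-- Automorphisms fixing all the points `±(1/2)^k`. -/
def HH : Subgroup Gam where
  carrier := {g | ∀ k : ℕ, g ((1 / 2 : ℝ) ^ k) = (1 / 2 : ℝ) ^ k ∧
    g (-(1 / 2 : ℝ) ^ k) = -(1 / 2 : ℝ) ^ k}
  one_mem' := by
    intro k
    exact ⟨rfl, rfl⟩
  mul_mem' := by
    intro a b ha hb k
    refine ⟨?_, ?_⟩
    · rw [RelIso.mul_apply, (hb k).1, (ha k).1]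
    · rw [RelIso.mul_apply, (hb k).2, (ha k).2]
  inv_mem' := by
    intro a ha k
    refine ⟨?_, ?_⟩
    · conv_lhs => rw [← (ha k).1]
      exact RelIso.inv_apply_self _ _
    · conv_lhs => rw [← (ha k).2]
      exact RelIso.inv_apply_self _ _

/-- Finitely supported sequences of automorphisms. -/
def GGs : Subgroup (ℕ → Gam) where
  carrier := {g | {n | g n ≠ 1}.Finite}
  one_mem' := by simp
  mul_mem' := by
    intro a b ha hb
    refine (ha.union hb).subset ?_
    intro n hn
    by_contra hcon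
    simp only [mem_union, mem_ofPred_eq, not_or, not_not] at hcon
    exact hn (by simp [hcon.1, hcon.2])
  inv_mem' := by
    intro a ha
    refine ha.subset ?_
    intro n hn hcon
    exact hn (by simp [hcon])

/-- The group `G`. -/
def GG : Type := ↥GGs

noncomputable instance : Group GG := inferInstanceAs (Group ↥GGs)

theorem GG.ext {a b : GG} (h : ∀ n, a.1 n = b.1 n) : a = b :=
  Subtype.ext (funext h)

theorem GG.mul_coe (a b : GG) (n : ℕ) : (a * b).1 n = a.1 n * b.1 n := rfl
theorem GG.one_coe (n : ℕ) : (1 : GG).1 n = 1 := rfl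
theorem GG.inv_coe (a : GG) (n : ℕ) : (a⁻¹).1 n = (a.1 n)⁻¹ := rfl

theorem GG.exists_bound (a : GG) : ∃ N, ∀ n, N ≤ n → a.1 n = 1 := by
  have h : {n | a.1 n ≠ 1}.Finite := a.2
  obtain ⟨N, hN⟩ := h.bddAbove
  refine ⟨N + 1, fun n hn => ?_⟩
  by_contra hcon
  have := hN (show n ∈ {n | a.1 n ≠ 1} from hcon)
  omega

/-- The basic open subgroups. -/
def UU (i : ℕ) : Subgroup GG where
  carrier := {g | (∀ n, n < i → g.1 n = 1) ∧ ∀ n, g.1 n ∈ HH}
  one_mem' := ⟨fun n _ => rfl, fun n => HH.one_mem⟩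
  mul_mem' := by
    intro a b ha hb
    refine ⟨fun n hn => ?_, fun n => ?_⟩
    · rw [GG.mul_coe, ha.1 n hn, hb.1 n hn, one_mul]
    · rw [GG.mul_coe]
      exact HH.mul_mem (ha.2 n) (hb.2 n)
  inv_mem' := by
    intro a ha
    refine ⟨fun n hn => ?_, fun n => ?_⟩
    · rw [GG.inv_coe, ha.1 n hn, inv_one]
    · rw [GG.inv_coe]
      exact HH.inv_mem (ha.2 n)

theorem UU_anti {i j : ℕ} (h : i ≤ j) : UU j ≤ UU i :=
  fun _ hg => ⟨fun n hn => hg.1 n (lt_of_lt_of_le hn h), hg.2⟩

/-- The filter basis. -/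
@[instance_reducible]
def basis : GroupFilterBasis GG where
  sets := range (fun i => (UU i : Set GG))
  nonempty := range_nonempty _
  inter_sets := by
    rintro _ _ ⟨i, rfl⟩ ⟨j, rfl⟩
    refine ⟨_, ⟨max i j, rfl⟩, ?_⟩
    exact subset_inter (UU_anti (le_max_left i j)) (UU_anti (le_max_right i j))
  one' := by
    rintro _ ⟨i, rfl⟩
    exact (UU i).one_mem
  mul' := by
    rintro _ ⟨i, rfl⟩
    refine ⟨_, ⟨i, rfl⟩, ?_⟩
    rintro _ ⟨a, ha, b, hb, rfl⟩
    exact (UU i).mul_mem ha hb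
  inv' := by
    rintro _ ⟨i, rfl⟩
    refine ⟨_, ⟨i, rfl⟩, ?_⟩
    intro a ha
    exact (UU i).inv_mem ha
  conj' := by
    rintro x _ ⟨i, rfl⟩
    obtain ⟨N, hN⟩ := x.exists_bound
    refine ⟨_, ⟨max i N, rfl⟩, ?_⟩
    intro a ha
    have key : x * a * x⁻¹ = a := by
      apply GG.ext
      intro n
      rw [GG.mul_coe, GG.mul_coe, GG.inv_coe]
      rcases lt_or_ge n (max i N) with h | h
      · rw [ha.1 n h]
        simp
      · rw [hN n (le_trans (le_max_right _ _) h)]
        simp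
    show x * a * x⁻¹ ∈ (UU i : Set GG)
    rw [key]
    exact UU_anti (le_max_left i N) ha

noncomputable instance : TopologicalSpace GG := basis.topology

instance : IsTopologicalGroup GG := basis.isTopologicalGroup

theorem nhds_one_basis : (𝓝 (1 : GG)).HasBasis (fun _ : ℕ => True) (fun i => (UU i : Set GG)) := by
  have h := basis.nhds_one_hasBasis
  refine ⟨fun t => ?_⟩
  rw [h.mem_iff]
  constructor
  · rintro ⟨_, ⟨i, rfl⟩, hi⟩
    exact ⟨i, trivial, hi⟩
  · rintro ⟨i, _, hi⟩
    exact ⟨_, ⟨i, rfl⟩, hi⟩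

instance : T2Space GG := by
  apply IsTopologicalGroup.t2Space_of_one_sep
  intro x hx
  by_contra hcon
  push Not at hcon
  apply hx
  apply GG.ext
  intro n
  have := hcon _ (nhds_one_basis.mem_of_mem (i := n + 1) trivial)
  exact this.1 n (Nat.lt_succ_self n)

instance : MetrizableSpace GG := by
  let _ : UniformSpace GG := IsTopologicalGroup.rightUniformSpace GG
  have : (𝓝 (1 : GG)).IsCountablyGenerated := nhds_one_basis.isCountablyGenerated
  have : (uniformity GG).IsCountablyGenerated := by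
    rw [uniformity_eq_comap_nhds_one' GG]
    infer_instance
  exact UniformSpace.metrizableSpace

/-! ### The space -/

/-- The space of finitely supported real sequences with the sup metric. -/
def XX : Type := {x : BoundedContinuousFunction ℕ ℝ // {n | x n ≠ 0}.Finite}

noncomputable instance : MetricSpace XX :=
  inferInstanceAs (MetricSpace {x : BoundedContinuousFunction ℕ ℝ // {n | x n ≠ 0}.Finite})

theorem XX.ext {x y : XX} (h : ∀ n, x.1 n = y.1 n) : x = y :=
  Subtype.ext (BoundedContinuousFunction.ext h)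

theorem XX.dist_coord (x y : XX) (n : ℕ) : |x.1 n - y.1 n| ≤ dist x y :=
  BoundedContinuousFunction.dist_coe_le_dist (f := x.1) (g := y.1) n

theorem XX.dist_le {x y : XX} {C : ℝ} (hC : 0 ≤ C) (h : ∀ n, |x.1 n - y.1 n| ≤ C) :
    dist x y ≤ C :=
  (BoundedContinuousFunction.dist_le hC).2 h

theorem exists_abs_bound (f : ℕ → ℝ) (hf : {n | f n ≠ 0}.Finite) : ∃ C, ∀ n, ‖f n‖ ≤ C := by
  have h : (range f).Finite := by
    refine ((hf.image f).insert 0).subset ?_
    rintro _ ⟨n, rfl⟩
    by_cases hn : f n = 0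
    · exact Or.inl hn
    · exact Or.inr ⟨n, hn, rfl⟩
  obtain ⟨C, hC⟩ := (h.image (fun x => ‖x‖)).bddAbove
  exact ⟨C, fun n => hC ⟨f n, ⟨n, rfl⟩, rfl⟩⟩

/-- Build an element of `XX` from a finitely supported sequence. -/
noncomputable def XX.mk (f : ℕ → ℝ) (hf : {n | f n ≠ 0}.Finite) : XX :=
  ⟨BoundedContinuousFunction.ofNormedAddCommGroup f continuous_of_discreteTopology
    (exists_abs_bound f hf).choose (exists_abs_bound f hf).choose_spec, hf⟩

theorem XX.mk_coe (f : ℕ → ℝ) (hf : {n | f n ≠ 0}.Finite) (n : ℕ) : (XX.mk f hf).1 n = f n := rfl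

theorem XX.exists_bound (x : XX) : ∃ N, ∀ n, N ≤ n → x.1 n = 0 := by
  have h : {n | x.1 n ≠ 0}.Finite := x.2
  obtain ⟨N, hN⟩ := h.bddAbove
  refine ⟨N + 1, fun n hn => ?_⟩
  by_contra hcon
  have := hN (show n ∈ {n | x.1 n ≠ 0} from hcon)
  omega

theorem act_finite (g : GG) (x : XX) : {n | g.1 n (x.1 n) ≠ 0}.Finite := by
  have h1 : {n | g.1 n ≠ 1}.Finite := g.2
  have h2 : {n | x.1 n ≠ 0}.Finite := x.2
  refine (h1.union h2).subset ?_
  intro n hn
  by_contra hcon
  simp only [mem_union, mem_ofPred_eq, not_or, not_not] at hcon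
  apply hn
  rw [hcon.1, hcon.2]
  rfl

noncomputable instance : MulAction GG XX where
  smul g x := XX.mk (fun n => g.1 n (x.1 n)) (act_finite g x)
  one_smul _ := XX.ext fun _ => rfl
  mul_smul _ _ _ := XX.ext fun _ => rfl

theorem smul_coe (g : GG) (x : XX) (n : ℕ) : (g • x).1 n = g.1 n (x.1 n) := rfl

theorem HH_interval {u : Gam} (hu : u ∈ HH) (k : ℕ) {x : ℝ} (hx : |x| < (1 / 2 : ℝ) ^ k) :
    |u x| < (1 / 2 : ℝ) ^ k := by
  rw [abs_lt] at hx ⊢
  constructor
  · rw [← (hu k).2]
    exact u.strictMono hx.1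
  · calc u x < u ((1 / 2 : ℝ) ^ k) := u.strictMono hx.2
      _ = (1 / 2 : ℝ) ^ k := (hu k).1

theorem continuous_coord (n : ℕ) : Continuous (fun x : XX => x.1 n) := by
  rw [Metric.continuous_iff]
  intro x ε hε
  refine ⟨ε, hε, fun y hy => ?_⟩
  exact lt_of_le_of_lt (XX.dist_coord y x n) hy

instance : ContinuousSMul GG XX := by
  refine ⟨continuous_iff_continuousAt.2 ?_⟩
  rintro ⟨g₀, x₀⟩
  obtain ⟨N₁, hN₁⟩ := g₀.exists_bound
  obtain ⟨N₂, hN₂⟩ := x₀.exists_bound
  set N := max N₁ N₂ with hN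
  rw [ContinuousAt, Metric.tendsto_nhds]
  intro ε hε
  obtain ⟨k, hk⟩ := exists_pow_lt_of_lt_one hε (show (1 / 2 : ℝ) < 1 by norm_num)
  have hkpos : (0 : ℝ) < (1 / 2 : ℝ) ^ k := by positivity
  -- neighbourhood of `g₀`
  have hG : ∀ᶠ g in 𝓝 g₀, g₀⁻¹ * g ∈ UU N := by
    have hc : ContinuousAt (fun g : GG => g₀⁻¹ * g) g₀ :=
      (continuous_const.mul continuous_id).continuousAt
    have h1 : (UU N : Set GG) ∈ 𝓝 (g₀⁻¹ * g₀) := by
      rw [inv_mul_cancel]
      exact nhds_one_basis.mem_of_mem trivial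
    exact hc h1
  -- neighbourhood of `x₀`
  have hX1 : ∀ᶠ x : XX in 𝓝 x₀, ∀ n ∈ Finset.range N,
      |g₀.1 n (x.1 n) - g₀.1 n (x₀.1 n)| < ε / 2 := by
    rw [Filter.eventually_all_finset]
    intro n _
    have hc : Continuous (fun x : XX => g₀.1 n (x.1 n)) :=
      (g₀.1 n).continuous.comp (continuous_coord n)
    exact (Metric.tendsto_nhds.1 (hc.continuousAt (x := x₀))) (ε / 2) (by positivity)
  have hX2 : ∀ᶠ x : XX in 𝓝 x₀, dist x x₀ < (1 / 2 : ℝ) ^ k :=
    Metric.ball_mem_nhds x₀ hkpos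
  have hX := hX1.and hX2
  filter_upwards [hG.prod_nhds hX] with p hp
  obtain ⟨g, x⟩ := p
  obtain ⟨hg, hx1, hx2⟩ := hp
  have hle : dist (g • x) (g₀ • x₀) ≤ max (ε / 2) ((1 / 2 : ℝ) ^ k) := by
    apply XX.dist_le (le_trans hkpos.le (le_max_right _ _))
    intro n
    rw [smul_coe, smul_coe]
    have hgn : g.1 n = g₀.1 n * (g₀⁻¹ * g).1 n := by
      rw [← GG.mul_coe, mul_inv_cancel_left]
    rcases lt_or_ge n N with hn | hn
    · rw [hgn, hg.1 n hn, mul_one]
      exact le_trans (hx1 n (Finset.mem_range.2 hn)).le (le_max_left _ _)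
    · have e1 : g₀.1 n = 1 := hN₁ n (le_trans (le_max_left _ _) hn)
      have e2 : x₀.1 n = 0 := hN₂ n (le_trans (le_max_right _ _) hn)
      rw [hgn, e1, one_mul, e2]
      have e3 : (1 : Gam) (0 : ℝ) = 0 := rfl
      rw [e3, sub_zero]
      refine le_trans (HH_interval (hg.2 n) k ?_).le (le_max_right _ _)
      have := XX.dist_coord x x₀ n
      rw [e2, sub_zero] at this
      exact lt_of_le_of_lt this hx2
  exact lt_of_le_of_lt hle (max_lt (by linarith) hk)

/-! ### Transitivity -/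

theorem transitive_smul (x y : XX) : ∃ g : GG, g • x = y := by
  have hfin : {n | (fun n => (OrderIso.addRight (y.1 n - x.1 n) : Gam)) n ≠ 1}.Finite := by
    refine (x.2.union y.2).subset ?_
    intro n hn
    by_contra hcon
    simp only [mem_union, mem_ofPred_eq, not_or, not_not] at hcon
    apply hn
    ext z
    have e1 : x.1 n = 0 := hcon.1
    have e2 : y.1 n = 0 := hcon.2
    show z + (y.1 n - x.1 n) = z
    rw [e1, e2]
    ring
  refine ⟨⟨fun n => OrderIso.addRight (y.1 n - x.1 n), hfin⟩, ?_⟩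
  apply XX.ext
  intro n
  rw [smul_coe]
  show x.1 n + (y.1 n - x.1 n) = y.1 n
  ring

instance : MulAction.IsPretransitive GG XX := ⟨transitive_smul⟩

/-! ### The points `c e_n` -/

theorem pt_finite (n : ℕ) (c : ℝ) : {j | (if j = n then c else 0) ≠ 0}.Finite := by
  refine (finite_singleton n).subset ?_
  intro j hj
  by_contra hcon
  exact hj (if_neg hcon)

/-- The point `c e_n`. -/
noncomputable def pt (n : ℕ) (c : ℝ) : XX := XX.mk (fun j => if j = n then c else 0) (pt_finite n c)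

theorem pt_coe (n : ℕ) (c : ℝ) (j : ℕ) : (pt n c).1 j = if j = n then c else 0 := rfl

theorem dist_pt_le (n : ℕ) (c c' : ℝ) : dist (pt n c) (pt n c') ≤ |c - c'| := by
  apply XX.dist_le (abs_nonneg _)
  intro j
  rw [pt_coe, pt_coe]
  split_ifs
  · exact le_rfl
  · simp

theorem continuous_pt (n : ℕ) : Continuous (pt n) := by
  rw [Metric.continuous_iff]
  intro c ε hε
  exact ⟨ε, hε, fun c' hc' => lt_of_le_of_lt (dist_pt_le n c' c) hc'⟩

theorem pt_zero (n m : ℕ) : pt n 0 = pt m 0 := by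
  apply XX.ext
  intro j
  rw [pt_coe, pt_coe]
  simp

/-- A piecewise linear map moving `c` to `c'` and fixing everything outside `(a,b)`. -/
noncomputable def plm (a b c c' : ℝ) (x : ℝ) : ℝ :=
  max x (min (a + (c' - a) / (c - a) * (x - a)) (b - (b - c') / (b - c) * (b - x)))

section plm

variable {a b c c' : ℝ}

theorem plm_of_le (h1 : a < c) (h2 : c < c') {x : ℝ} (hx : x ≤ a) :
    plm a b c c' x = x := by
  have hs : 1 ≤ (c' - a) / (c - a) := by
    rw [le_div_iff₀ (by linarith)]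
    linarith
  apply max_eq_left
  refine le_trans (min_le_left _ _) ?_
  nlinarith

theorem plm_of_ge (h2 : c < c') (h3 : c' < b) {x : ℝ} (hx : b ≤ x) :
    plm a b c c' x = x := by
  have hs : (b - c') / (b - c) ≤ 1 := by
    rw [div_le_iff₀ (by linarith)]
    linarith
  apply max_eq_left
  refine le_trans (min_le_right _ _) ?_
  nlinarith

theorem plm_apply (h1 : a < c) (h2 : c < c') (h3 : c' < b) : plm a b c c' c = c' := by
  unfold plm
  rw [div_mul_cancel₀ _ (by linarith : c - a ≠ 0), div_mul_cancel₀ _ (by linarith : b - c ≠ 0)]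
  have e1 : a + (c' - a) = c' := by ring
  have e2 : b - (b - c') = c' := by ring
  rw [e1, e2, min_self, max_eq_right h2.le]

theorem plm_strictMono (h1 : a < c) (h2 : c < c') (h3 : c' < b) : StrictMono (plm a b c c') := by
  intro x y hxy
  have hs : 0 < (c' - a) / (c - a) := div_pos (by linarith) (by linarith)
  have hr : 0 < (b - c') / (b - c) := div_pos (by linarith) (by linarith)
  unfold plm
  apply max_lt_max hxy
  apply min_lt_min
  · nlinarith
  · nlinarith

theorem plm_continuous : Continuous (plm a b c c') := by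
  unfold plm
  fun_prop

theorem plm_surjective (h1 : a < c) (h2 : c < c') : Function.Surjective (plm a b c c') := by
  apply plm_continuous.surjective
  · exact tendsto_atTop_mono (fun x => le_max_left _ _) tendsto_id
  · refine Tendsto.congr' ?_ tendsto_id
    filter_upwards [eventually_le_atBot a] with x hx
    exact (plm_of_le h1 h2 hx).symm

end plm

theorem exists_move (j : ℕ) {c c' : ℝ} (h1 : (1 / 2 : ℝ) ^ (j + 1) < c) (h2 : c < c')
    (h3 : c' < (1 / 2 : ℝ) ^ j) : ∃ u ∈ HH, u c = c' := by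
  set a := (1 / 2 : ℝ) ^ (j + 1) with ha
  set b := (1 / 2 : ℝ) ^ j with hb
  have hapos : 0 < a := by positivity
  refine ⟨StrictMono.orderIsoOfSurjective _ (plm_strictMono h1 h2 h3) (plm_surjective (b := b) h1 h2),
    ?_, plm_apply h1 h2 h3⟩
  intro k
  have hkpos : (0 : ℝ) < (1 / 2 : ℝ) ^ k := by positivity
  refine ⟨?_, ?_⟩
  · rcases Nat.lt_or_ge j k with hk | hk
    · apply plm_of_le h1 h2
      exact pow_le_pow_of_le_one (by norm_num) (by norm_num) hk
    · apply plm_of_ge h2 h3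
      exact pow_le_pow_of_le_one (by norm_num) (by norm_num) hk
  · apply plm_of_le h1 h2
    linarith

theorem single_finite (n : ℕ) (u : Gam) : {j | (if j = n then u else 1) ≠ 1}.Finite := by
  refine (finite_singleton n).subset ?_
  intro j hj
  by_contra hcon
  exact hj (if_neg hcon)

/-- The element of the group acting as `u` on the `n`-th coordinate. -/
noncomputable def single (n : ℕ) (u : Gam) : GG := ⟨fun j => if j = n then u else 1, single_finite n u⟩

theorem single_coe (n : ℕ) (u : Gam) (j : ℕ) : (single n u).1 j = if j = n then u else 1 := rfl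

theorem single_mem {i n : ℕ} (h : i ≤ n) {u : Gam} (hu : u ∈ HH) : single n u ∈ UU i := by
  refine ⟨fun j hj => ?_, fun j => ?_⟩
  · rw [single_coe, if_neg (by omega)]
  · rw [single_coe]
    split_ifs
    · exact hu
    · exact HH.one_mem

theorem single_smul (n : ℕ) {u : Gam} (c : ℝ) : single n u • pt n c = pt n (u c) := by
  apply XX.ext
  intro j
  rw [smul_coe, single_coe, pt_coe, pt_coe]
  split_ifs
  · rfl
  · rfl

theorem dist_pt_one (n : ℕ) : 1 ≤ dist (pt n 1) (pt 0 0) := by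
  have := XX.dist_coord (pt n 1) (pt 0 0) n
  rw [pt_coe, pt_coe] at this
  simpa using this

theorem not_gTychonoff : ¬ GTychonoff.{0, 0, w} GG XX := by
  rintro ⟨Y, _, _, _, _, _, ν, hν, heq⟩
  -- separate the origin from the set of unit vectors
  set A : Set XX := range (fun n => pt n 1) with hA
  have h0 : pt 0 0 ∉ closure A := by
    rw [Metric.mem_closure_iff]
    push Not
    refine ⟨1, one_pos, ?_⟩
    rintro _ ⟨n, rfl⟩
    rw [dist_comm]
    exact dist_pt_one n
  have h1 : ν (pt 0 0) ∉ closure (ν '' A) := by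
    intro h
    apply h0
    rw [hν.isInducing.closure_eq_preimage_closure_image]
    exact h
  obtain ⟨F, hF0, hF1, -⟩ := exists_continuous_zero_one_of_isClosed
    (isClosed_singleton (x := ν (pt 0 0))) (isClosed_closure (s := ν '' A))
    (disjoint_singleton_left.2 h1)
  have hF0' : F (ν (pt 0 0)) = 0 := hF0 rfl
  have hF1' : ∀ n, F (ν (pt n 1)) = 1 := fun n =>
    hF1 (subset_closure ⟨_, ⟨n, rfl⟩, rfl⟩)
  -- uniformity
  have hunif : ∀ ε : ℝ, 0 < ε → ∃ i, ∀ g ∈ UU i, ∀ y : Y, |F (g • y) - F y| < ε := by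
    intro ε hε
    have hopen : IsOpen {p : GG × Y | |F (p.1 • p.2) - F p.2| < ε} := by
      apply isOpen_lt _ continuous_const
      fun_prop
    obtain ⟨U, V, hU, -, hU1, hV1, hUV⟩ := generalized_tube_lemma
      (isCompact_singleton (x := (1 : GG))) (isCompact_univ (X := Y)) hopen (by
        rintro ⟨g, y⟩ ⟨hg, -⟩
        have hg' : g = 1 := hg
        simp [hg', hε])
    obtain ⟨i, -, hi⟩ := nhds_one_basis.mem_iff.1 (hU.mem_nhds (hU1 rfl))
    refine ⟨i, fun g hg y => ?_⟩
    exact hUV (mk_mem_prod (hi hg) (hV1 (mem_univ y)))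
  -- one step
  have hstep : ∀ ε : ℝ, 0 < ε → ∃ i, ∀ n, i ≤ n → ∀ j : ℕ,
      |F (ν (pt n ((1 / 2 : ℝ) ^ j))) - F (ν (pt n ((1 / 2 : ℝ) ^ (j + 1))))| ≤ ε := by
    intro ε hε
    obtain ⟨i, hi⟩ := hunif ε hε
    refine ⟨i, fun n hn j => ?_⟩
    set a := (1 / 2 : ℝ) ^ (j + 1) with ha
    set b := (1 / 2 : ℝ) ^ j with hb
    have hab : a < b := by
      rw [ha, hb]
      exact pow_lt_pow_right_of_lt_one₀ (by norm_num) (by norm_num) (Nat.lt_succ_self j)
    set φ : ℝ → ℝ := fun c => F (ν (pt n c)) with hφ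
    have hφc : Continuous φ := F.continuous.comp (hν.continuous.comp (continuous_pt n))
    have hmove : ∀ c c', a < c → c < c' → c' < b → |φ c' - φ c| ≤ ε := by
      intro c c' h1 h2 h3
      obtain ⟨u, hu, huc⟩ := exists_move j h1 h2 h3
      have := hi (single n u) (single_mem hn hu) (ν (pt n c))
      rw [← heq, single_smul, huc] at this
      exact this.le
    have hb1 : ∀ c ∈ Ioo a b, |φ b - φ c| ≤ ε := by
      intro c hc
      have hcl : IsClosed {c' | |φ c' - φ c| ≤ ε} :=
        isClosed_le (by fun_prop) continuous_const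
      have hsub : Ioo c b ⊆ {c' | |φ c' - φ c| ≤ ε} := fun c' hc' =>
        hmove c c' hc.1 hc'.1 hc'.2
      have := closure_minimal hsub hcl
      rw [closure_Ioo hc.2.ne] at this
      exact this ⟨hc.2.le, le_rfl⟩
    have hcl : IsClosed {c | |φ b - φ c| ≤ ε} :=
      isClosed_le (by fun_prop) continuous_const
    have := closure_minimal hb1 hcl
    rw [closure_Ioo hab.ne] at this
    exact this ⟨le_rfl, hab.le⟩
  -- many steps
  have hsteps : ∀ (ε : ℝ) (n : ℕ), (∀ j : ℕ,
      |F (ν (pt n ((1 / 2 : ℝ) ^ j))) - F (ν (pt n ((1 / 2 : ℝ) ^ (j + 1))))| ≤ ε) →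
      ∀ k : ℕ, |F (ν (pt n 1)) - F (ν (pt n ((1 / 2 : ℝ) ^ k)))| ≤ k * ε := by
    intro ε n h k
    induction k with
    | zero => simp
    | succ k ih =>
      have h1 := h k
      have h2 := abs_sub_le (F (ν (pt n 1))) (F (ν (pt n ((1 / 2 : ℝ) ^ k))))
        (F (ν (pt n ((1 / 2 : ℝ) ^ (k + 1)))))
      push_cast
      linarith
  -- conclusion
  have hcont : ContinuousAt (fun x => F (ν x)) (pt 0 0) :=
    (F.continuous.comp hν.continuous).continuousAt
  rw [Metric.continuousAt_iff] at hcont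
  obtain ⟨δ, hδ, hδ'⟩ := hcont (1 / 4) (by norm_num)
  obtain ⟨k, hk⟩ := exists_pow_lt_of_lt_one hδ (show (1 / 2 : ℝ) < 1 by norm_num)
  obtain ⟨i, hi⟩ := hstep (1 / (4 * (k + 1))) (by positivity)
  have h2 := hsteps _ i (hi i le_rfl) k
  have h3 : dist (pt i ((1 / 2 : ℝ) ^ k)) (pt 0 0) < δ := by
    rw [pt_zero 0 i]
    refine lt_of_le_of_lt (dist_pt_le _ _ _) ?_
    rw [sub_zero, abs_of_pos (by positivity)]
    exact hk
  have h4 := hδ' h3
  rw [Real.dist_eq, hF0', sub_zero] at h4
  rw [hF1'] at h2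
  have h5 : (k : ℝ) * (1 / (4 * (k + 1))) ≤ 1 / 4 := by
    rw [mul_one_div, div_le_div_iff₀ (by positivity) (by norm_num)]
    linarith
  rw [abs_le] at h2
  rw [abs_lt] at h4
  linarith [h2.2, h4.2]

/-- There are a metrizable group `G` and a metrizable `G`-space `X` with exactly one orbit
which is not `G`-Tychonoff. -/
theorem result : ∃ (G : Type) (_ : Group G) (_ : TopologicalSpace G) (_ : IsTopologicalGroup G)
    (_ : MetrizableSpace G) (X : Type) (_ : TopologicalSpace X) (_ : MetrizableSpace X)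
    (_ : MulAction G X) (_ : ContinuousSMul G X),
    Nonempty X ∧ (∀ x y : X, ∃ g : G, g • x = y) ∧ ¬ GTychonoff.{0, 0, w} G X :=
  ⟨GG, inferInstance, inferInstance, inferInstance, inferInstance, XX, inferInstance,
    inferInstance, inferInstance, inferInstance, ⟨pt 0 0⟩, transitive_smul, not_gTychonoff⟩

end Pool.Agent.Results.MP_ac5cde_gt.Transitive
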